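import Pool.Agent.Zk38.AP.UOpp

/-!
# Clusters of products of few primes in all residue classes, for all moduli

The problem asks whether the least prime in every reduced residue class modulo `a` is `O(φ(a) (log a)²)`. Here we prove the
theorem of Maynard and Tao for products of at most three primes in EVERY reduced residue class `b` modulo EVERY `a`, already
below `a ^ 1.565`: for every `m` there is `K` such that for every set `S` of at least `K` nonnegative integers and every large
`H ≥ a ^ 0.565` there are products of at most three primes `b + a (x + h) ≤ b + a H`, for `m` elements `h` of `S` (and a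
common `x`), all of whose prime factors are at least `H ^ (1/8)`. These clusters can be translated along progressions of any
prescribed length whose difference is at most `a` times a power of `log H`. For two prime factors the exponent is `2.2`, for
four it is `1.365`, and for `r` prime factors it is any number greater than `Λ_r / (Λ_r - 1)`, where `Λ_r` is Richert's
constant, hence arbitrarily close to `1` if `r` is large.

Proof. The sieve of Maynard and Tao combined with Richert's weights (`R498/MT` in the starting files for quadratic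
polynomials, `Zk41/P4` for polynomials of degree at least two, by helper41), here uniformly for the polynomials `a X + b`
(`Zk38/AP`). The progressions come from Szemerédi's theorem for sifted sets (`Y677/RSZ`), which is uniform in the sifted
system.
-/

set_option autoImplicit false

namespace Pool.Agent.Results.MP_5b0a7e_nt.AlmostPrimeClusters

/-- Richert's constant `Λ_r = 1 + log ((3 ^ r + 1) / 4) / log 3 = r + 1 - log (4 / (1 + 3 ^ (-r))) / log 3`:
`Λ_2 = 1.834...`, `Λ_3 = 2.771...`, `Λ_4 = 3.749...`. -/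
noncomputable def Lambda (r : ℕ) : ℝ := 1 + Real.log ((3 ^ r + 1) / 4) / Real.log 3

/-- `1 ≤ k ≤ H`, and the number `b + a k` is a product of at most `r` primes (with multiplicity), all of them at least
`z`. -/
def GoodIndex (r : ℕ) (z : ℝ) (a b H k : ℕ) : Prop :=
  1 ≤ k ∧ k ≤ H ∧ (b + a * k).primeFactorsList.length ≤ r ∧ ∀ p : ℕ, p.Prime → p ∣ b + a * k → z ≤ p

/-- **Theorem.** Let `1 + θ < θ Λ_r` (for instance `θ = 1.2` and `r = 2`, `θ = 0.565` and `r = 3`, or `θ = 0.365` and `r = 4`).
For every `m` there is `K` such that for every set `S` of at least `K` nonnegative integers and every `l` there are `B, H₀` such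
that the following holds for EVERY modulus `a ≥ 1`, every `b ≤ a` coprime to `a` and every `H ≥ max(H₀, a ^ θ)`: there are `m`
elements `h` of `S` and `x`, `1 ≤ d ≤ (log H) ^ B` such that all the indices `k = x + j d + h`, `j < l`, satisfy
`1 ≤ k ≤ H` and `b + a k` is a product of at most `r` primes `≥ H ^ (1/8)`. -/
theorem result :
    (∀ (r : ℕ) (θ : ℝ), 1 ≤ r → 0 < θ → 1 + θ < θ * Lambda r → ∀ m : ℕ, ∃ K : ℕ, ∀ S : Finset ℕ, K ≤ S.card →
      ∀ l : ℕ, ∃ B H₀ : ℕ, ∀ a b H : ℕ, 0 < a → Nat.Coprime b a → b ≤ a → (a : ℝ) ^ θ ≤ H → H₀ ≤ H →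
        ∃ T ⊆ S, T.card = m ∧ ∃ x d : ℕ, 1 ≤ d ∧ (d : ℝ) ≤ Real.log H ^ B ∧
          ∀ j < l, ∀ h ∈ T, GoodIndex r ((H : ℝ) ^ (1 / 8 : ℝ)) a b H (x + j * d + h)) ∧
    1 + 1.2 < 1.2 * Lambda 2 ∧ 1 + 0.565 < 0.565 * Lambda 3 ∧ 1 + 0.365 < 0.365 * Lambda 4 := by
  classical
  have h3 : 0 < Real.log 3 := Real.log_pos (by norm_num)
  refine ⟨fun r θ hr hθ h m => ?_, ?_, ?_, ?_⟩
  · obtain ⟨K, hK⟩ := Pool.Agent.Zk38.AP.classClusters r hr θ hθ h m
    refine ⟨K, fun S hS l => ?_⟩
    obtain ⟨B, H₀, hB⟩ := hK S hS l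
    refine ⟨B, H₀, fun a b H ha hba hb haH hH => ?_⟩
    obtain ⟨T, hT, hTc, x, d, h0, h1, h2, h4⟩ := hB a b H ha hba hb haH hH
    refine ⟨T, hT, hTc, x, d, h1, h2, fun j hj i hi => ?_⟩
    obtain ⟨g1, g2, g3⟩ := h4 j hj i hi
    exact ⟨by omega, g1, g2, g3⟩
  · have h2 : 5 * Real.log 3 < 6 * Real.log (5 / 2) := by
      have h2 : Real.log ((3 : ℝ) ^ 5) < Real.log ((5 / 2 : ℝ) ^ 6) := Real.log_lt_log (by norm_num) (by norm_num)
      rw [Real.log_pow, Real.log_pow] at h2
      push_cast at h2
      exact h2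
    have h4 : (5 / 6 : ℝ) < Real.log ((3 ^ 2 + 1) / 4) / Real.log 3 := by
      rw [lt_div_iff₀ h3, show ((3 : ℝ) ^ 2 + 1) / 4 = 5 / 2 by norm_num]
      linarith
    unfold Lambda
    linarith
  · have h1 : 1 + (131 : ℝ) / 74 ≤ Lambda 3 := Pool.Agent.K3h19.RV.lam_three
    linarith
  · have h1 : 151 * Real.log 3 ≤ 55 * Real.log (41 / 2) := by
      have h2 : Real.log ((3 : ℝ) ^ 151) ≤ Real.log ((41 / 2 : ℝ) ^ 55) := Real.log_le_log (by norm_num) (by norm_num)
      rw [Real.log_pow, Real.log_pow] at h2
      push_cast at h2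
      exact h2
    have h2 : (151 / 55 : ℝ) ≤ Real.log ((3 ^ 4 + 1) / 4) / Real.log 3 := by
      rw [le_div_iff₀ h3, show ((3 : ℝ) ^ 4 + 1) / 4 = 41 / 2 by norm_num]
      linarith
    unfold Lambda
    linarith

end Pool.Agent.Results.MP_5b0a7e_nt.AlmostPrimeClusters
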