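import Pool.Agent.Zk38.AP.ModD

/-!
# Products of few primes in the initial segments of all residue classes, for all moduli

The problem asks whether the least prime in every reduced residue class modulo `a` is `O(φ(a) (log a)²)`. Here we prove for
products of at most three primes, for EVERY modulus `a` and EVERY reduced residue class `b` modulo `a`: already the first
`H ≥ a ^ 0.565` terms of the progression `b + a k` contain the expected number (up to a constant) of products of at most three
primes, and every dense set of such terms contains progressions of any length whose common difference is at most `a` times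
a power of `log a`. So there are structures of almost primes below `a ^ 1.565` in all the classes. For four prime factors the
exponent is `1.365`, and for `r` prime factors it is any number greater than `Λ_r / (Λ_r - 1)`, where `Λ_r` is Richert's
constant, hence arbitrarily close to `1` if `r` is large.

Proof. Richert's weighted linear sieve (`Y882` in the starting files, `Zk41/P4` and `Zk48/AP` by helper41 and helper48), and
Szemerédi's theorem relative to the values without small prime factors of a polynomial with large coefficients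
(`Zk41/PY`, helper41).
-/

set_option autoImplicit false

namespace Pool.Agent.Results.MP_5b0a7e_nt.AlmostPrimesInClasses

open Finset

/-- Richert's constant `Λ_r = 1 + log ((3 ^ r + 1) / 4) / log 3 = r + 1 - log (4 / (1 + 3 ^ (-r))) / log 3`:
`Λ_2 = 1.834...`, `Λ_3 = 2.771...`, `Λ_4 = 3.749...`. -/
noncomputable def Lambda (r : ℕ) : ℝ := 1 + Real.log ((3 ^ r + 1) / 4) / Real.log 3

open Classical in
/-- The indices `1 ≤ k ≤ H` for which `b + a k` is a product of at most `r` primes (with multiplicity), all of them at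
least `z`. -/
noncomputable def goodTerms (r : ℕ) (z : ℝ) (a b H : ℕ) : Finset ℕ :=
  (Icc 1 H).filter (fun k => (b + a * k).primeFactorsList.length ≤ r ∧
    ∀ p : ℕ, p.Prime → p ∣ b + a * k → z ≤ p)

/-- `S` is a set of indices `1 ≤ k ≤ H` for which `b + a k` has no prime factors smaller than `z`. -/
def Rough (z : ℝ) (a b H : ℕ) (S : Finset ℕ) : Prop :=
  S ⊆ Icc 1 H ∧ ∀ k ∈ S, ∀ p : ℕ, p.Prime → p ∣ b + a * k → z ≤ p

/-- **Theorem.** Let `1 + θ < θ Λ_r` (for instance `θ = 1.2` and `r = 2`, `θ = 0.565` and `r = 3`, or `θ = 0.365` and `r = 4`).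
There is `c > 0` such that for all `l`, `κ, ρ > 0` there are `B, H₀` such that the following holds for EVERY modulus
`a ≥ 1`, every `b ≤ a` coprime to `a` and every `H ≥ max(H₀, a ^ θ)`: for at least `c (a / φ(a)) H / log H` of the `k ≤ H` the
number `b + a k` is a product of at most `r` primes `≥ H ^ (1/8)`, and every set of at least `κ (a / φ(a)) H / log H` numbers
`k ≤ H` for which `b + a k` has no prime factors `< H ^ ρ` contains a progression of length `l` with common difference at most
`(log H) ^ B`. -/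
theorem result :
    (∀ (r : ℕ) (θ : ℝ), 1 ≤ r → 0 < θ → 1 + θ < θ * Lambda r → ∃ c : ℝ, 0 < c ∧
      ∀ (l : ℕ) (κ ρ : ℝ), 0 < κ → 0 < ρ → ∃ B H₀ : ℕ, ∀ a b H : ℕ, 0 < a → Nat.Coprime b a → b ≤ a →
        (a : ℝ) ^ θ ≤ H → H₀ ≤ H →
        c * (((a : ℝ) / a.totient) * (H / Real.log H)) ≤ (goodTerms r ((H : ℝ) ^ (1 / 8 : ℝ)) a b H).card ∧
        ∀ S : Finset ℕ, Rough ((H : ℝ) ^ ρ) a b H S → κ * (((a : ℝ) / a.totient) * (H / Real.log H)) ≤ S.card →
          ∃ x d : ℕ, 1 ≤ d ∧ (d : ℝ) ≤ Real.log H ^ B ∧ ∀ i < l, x + i * d ∈ S) ∧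
    1 + 1.2 < 1.2 * Lambda 2 ∧ 1 + 0.565 < 0.565 * Lambda 3 ∧ 1 + 0.365 < 0.365 * Lambda 4 := by
  classical
  have h3 : 0 < Real.log 3 := Real.log_pos (by norm_num)
  refine ⟨fun r θ hr hθ h => ?_, ?_, ?_, ?_⟩
  · obtain ⟨c, hc, hmain⟩ := Pool.Agent.Zk38.AP.classG r hr θ hθ h
    refine ⟨c, hc, fun l κ ρ hκ hρ => ?_⟩
    obtain ⟨B, H₀, hB⟩ := hmain l κ ρ hκ hρ
    refine ⟨B, H₀, fun a b H ha hba hb haH hH => ?_⟩
    obtain ⟨h1, h2⟩ := hB a b H ha hba hb haH hH
    refine ⟨?_, fun S hS hSc => h2 S hS.1 hS.2 hSc⟩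
    refine h1.trans (le_of_eq ?_)
    unfold goodTerms Pool.Agent.Zk38.AP.RG
    rfl
  · have h1 : 5 * Real.log 3 ≤ 6 * Real.log (5 / 2) := by
      have h2 : Real.log ((3 : ℝ) ^ 5) ≤ Real.log ((5 / 2 : ℝ) ^ 6) := Real.log_le_log (by norm_num) (by norm_num)
      rw [Real.log_pow, Real.log_pow] at h2
      push_cast at h2
      exact h2
    have h2 : 5 * Real.log 3 < 6 * Real.log (5 / 2) := by
      have h2 : Real.log ((3 : ℝ) ^ 5) < Real.log ((5 / 2 : ℝ) ^ 6) := Real.log_lt_log (by norm_num) (by norm_num)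
      rw [Real.log_pow, Real.log_pow] at h2
      push_cast at h2
      exact h2
    have h4 : (5 / 6 : ℝ) < Real.log ((3 ^ 2 + 1) / 4) / Real.log 3 := by
      rw [lt_div_iff₀ h3, show ((3 : ℝ) ^ 2 + 1) / 4 = 5 / 2 by norm_num]
      linarith
    unfold Lambda
    linarith
  · have h1 : 1 + (131 : ℝ) / 74 ≤ Lambda 3 := Pool.Agent.K3h19.RV.lam_three
    linarith
  · have h1 : 151 * Real.log 3 ≤ 55 * Real.log (41 / 2) := by
      have h2 : Real.log ((3 : ℝ) ^ 151) ≤ Real.log ((41 / 2 : ℝ) ^ 55) := Real.log_le_log (by norm_num) (by norm_num)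
      rw [Real.log_pow, Real.log_pow] at h2
      push_cast at h2
      exact h2
    have h2 : (151 / 55 : ℝ) ≤ Real.log ((3 ^ 4 + 1) / 4) / Real.log 3 := by
      rw [le_div_iff₀ h3, show ((3 : ℝ) ^ 4 + 1) / 4 = 41 / 2 by norm_num]
      linarith
    unfold Lambda
    linarith

end Pool.Agent.Results.MP_5b0a7e_nt.AlmostPrimesInClasses
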