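import Pool.Agent.Zk41.CL.H

/-!
# Every modulus `a ≤ x ^ (1 - η)`: in a quarter of the classes the terms up to `x` contain narrow progressions of primes

For EVERY modulus `a ≤ x ^ (1 - η)` and every set `S` of at least `κ π(x)` primes `≤ x`, at least `(κ ^ 2 / 4 - ε) φ(a)`
reduced classes modulo `a` contain `k` elements of `S` in arithmetic progression with a difference `a d`,
`1 ≤ d ≤ (log x) ^ B`; and this is so for EVERY reduced class which contains at least `ε π(x) / φ(a)` elements of `S`. The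
exponent `B` does not depend on `x`, `a`, the class and `S`. For `x = a ^ (1 + δ)` this is about primes which are only a
little larger than the modulus.

Only Mathlib is used in the statement.

Proof (`Pool/Agent/Zk41/CL`): the theorem `S_ENGX` of the starting files (`K3h89.SX`, Szemerédi's theorem with differences
`≤ (log H) ^ B` for dense sets of integers `n` with `F(n)` free of small prime factors, uniform in `F`) is applied to
`F(y) = a y + b`; the number of the classes comes from the second moment of the number of primes in the classes of every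
modulus (`Zk41.CL.classes`).
-/

set_option autoImplicit false

namespace Pool.Agent.Results.MP_5b0a7e_nt.NarrowProgressionsEveryModulus

open Finset

/-- `S` contains `k` numbers in arithmetic progression, which are congruent to `b` modulo `a`, with a difference `a d`,
`1 ≤ d ≤ D` -/
def HasAP (k : ℕ) (D : ℝ) (S : Finset ℕ) (a b : ℕ) : Prop :=
  ∃ p d : ℕ, 1 ≤ d ∧ (d : ℝ) ≤ D ∧ ∀ i < k, p + i * (a * d) ∈ S ∧ p + i * (a * d) ≡ b [MOD a]

lemma hasAP_of {k : ℕ} {D : ℝ} {S : Finset ℕ} {a b : ℕ} (hb : b < a)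
    (h : ∃ p d : ℕ, 1 ≤ d ∧ (d : ℝ) ≤ D ∧ ∀ i < k, p + i * (a * d) ∈ Pool.Agent.Zk41.CL.cls S a b) :
    HasAP k D S a b := by
  obtain ⟨p, d, h1, h2, h3⟩ := h
  refine ⟨p, d, h1, h2, fun i hi => ?_⟩
  have h4 := h3 i hi
  unfold Pool.Agent.Zk41.CL.cls at h4
  rw [mem_filter] at h4
  refine ⟨h4.1, ?_⟩
  unfold Nat.ModEq
  rw [Nat.mod_eq_of_lt hb]
  exact h4.2

theorem result (η κ ε : ℝ) (hη : 0 < η) (hκ : 0 < κ) (hε : 0 < ε) (k : ℕ) : ∃ B x₀ : ℕ, ∀ x : ℕ, x₀ ≤ x →
    ∀ a : ℕ, 1 ≤ a → (a : ℝ) ≤ (x : ℝ) ^ (1 - η) → ∀ S : Finset ℕ, (∀ p ∈ S, p.Prime ∧ p ≤ x) →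
    (∀ b < a, Nat.Coprime b a →
      ε * (Nat.primeCounting x / Nat.totient a) ≤ ((S.filter (fun p => p ≡ b [MOD a])).card : ℝ) →
      HasAP k (Real.log x ^ B) S a b) ∧
    (κ * Nat.primeCounting x ≤ S.card → (κ ^ 2 / 4 - ε) * Nat.totient a ≤
      (Set.ncard {b : ℕ | b < a ∧ Nat.Coprime b a ∧ HasAP k (Real.log x ^ B) S a b} : ℝ)) := by
  classical
  obtain ⟨B, x₀, h⟩ := Pool.Agent.Zk41.CL.narrow η κ ε hη hκ hε k
  refine ⟨B, x₀, fun x hx a ha hax S hS => ?_⟩
  obtain ⟨h1, h2⟩ := h x hx a ha hax S (fun p hp => Pool.Agent.Zk41.CL.mem_PR.2 (hS p hp))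
  rw [Pool.Agent.Zk41.CL.piN_eq] at h1 h2
  refine ⟨fun b hb hab hc => hasAP_of hb (h1 b hb hab ?_), fun hSc => (h2 hSc).trans ?_⟩
  · refine hc.trans (le_of_eq ?_)
    rw [Nat.cast_inj]
    unfold Pool.Agent.Zk41.CL.cls
    congr 1
    apply filter_congr
    intro p _
    unfold Nat.ModEq
    rw [Nat.mod_eq_of_lt hb]
  · rw [Nat.cast_le, ← Set.ncard_coe_finset]
    apply Set.ncard_le_ncard
    · intro b hb
      rw [mem_coe, mem_filter, mem_range] at hb
      exact ⟨hb.1, hb.2.1, hasAP_of hb.1 hb.2.2⟩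
    · exact (Set.finite_lt_nat a).subset fun b hb => hb.1

end Pool.Agent.Results.MP_5b0a7e_nt.NarrowProgressionsEveryModulus
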