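import Pool.Agent.Zk41.CL.F

/-!
# Every modulus: an explicit proportion of the residue classes contain small primes, from every dense set of primes

For EVERY modulus `a ≤ x` (no exceptional moduli) and every set `S` of at least `κ π(x)` primes `≤ x`, with
`Λ = π(x) / φ(a)` (the average number of primes up to `x` in a reduced class modulo `a`), at least
`(1 - ε) (κ - ρ) ^ 2 Λ / (κ + 4 Λ) φ(a)` reduced classes modulo `a` contain at least `max 1 (ρ Λ)` elements of `S`.

For all primes and `x = l φ(a) log a` this gives: for every large modulus `a` at least `(l / (1 + 4 l) - ε) φ(a)` reduced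
classes `b` are such that the least prime `p(a, b)` in the class is at most `l φ(a) log a`.

Only Mathlib is used in the statement.

Proof (`Pool/Agent/Zk41/CL`): Selberg's sieve and the theorem of Bombieri and Vinogradov bound the number of primes `p ≤ N`
with `p + h` prime by `4 + ε` times the expected number, for all even `h`; the singular series is averaged over the multiples
of the modulus `a` without any error term, so that the second moment of the number of primes in the classes modulo `a` is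
bounded for every `a ≤ x`.
-/

set_option autoImplicit false

namespace Pool.Agent.Results.MP_5b0a7e_nt.QuarterEveryModulus

open Finset

/-- the number of elements of `S` in the class `b` modulo `a` -/
def num (S : Finset ℕ) (a b : ℕ) : ℕ := (S.filter (fun p => p ≡ b [MOD a])).card

lemma num_eq (S : Finset ℕ) {a b : ℕ} (hb : b < a) : num S a b = (Pool.Agent.Zk41.CL.cls S a b).card := by
  unfold num Pool.Agent.Zk41.CL.cls
  congr 1
  apply filter_congr
  intro p _
  unfold Nat.ModEq
  rw [Nat.mod_eq_of_lt hb]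

theorem result :
    (∀ ε κ ρ : ℝ, 0 < ε → 0 ≤ ρ → ρ < κ → ∃ X₀ : ℕ, ∀ x : ℕ, X₀ ≤ x → ∀ a : ℕ, 1 ≤ a → a ≤ x →
      ∀ S : Finset ℕ, (∀ p ∈ S, p.Prime ∧ p ≤ x) → κ * Nat.primeCounting x ≤ S.card →
      (1 - ε) * ((κ - ρ) ^ 2 * (Nat.primeCounting x / Nat.totient a) /
        (κ + 4 * (Nat.primeCounting x / Nat.totient a))) * Nat.totient a ≤
      ({b ∈ range a | Nat.Coprime b a ∧ 1 ≤ num S a b ∧
        ρ * (Nat.primeCounting x / Nat.totient a) ≤ (num S a b : ℝ)}.card : ℝ)) ∧
    (∀ ε l : ℝ, 0 < ε → 0 < l → ∃ A : ℕ, ∀ a : ℕ, A ≤ a →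
      (l / (1 + 4 * l) - ε) * Nat.totient a ≤
      (Set.ncard {b : ℕ | b < a ∧ Nat.Coprime b a ∧
        ∃ p : ℕ, p.Prime ∧ p ≡ b [MOD a] ∧ (p : ℝ) ≤ l * Nat.totient a * Real.log a} : ℝ)) := by
  classical
  constructor
  · intro ε κ ρ hε hρ hρκ
    obtain ⟨X₀, h⟩ := Pool.Agent.Zk41.CL.classes ε κ ρ hε hρ hρκ
    refine ⟨X₀, fun x hx a ha hax S hS hSc => ?_⟩
    have h1 := h x hx a ha hax S (fun p hp => Pool.Agent.Zk41.CL.mem_PR.2 (hS p hp)) (by
      rw [Pool.Agent.Zk41.CL.piN_eq]
      exact hSc)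
    rw [Pool.Agent.Zk41.CL.piN_eq] at h1
    refine h1.trans (le_of_eq ?_)
    rw [Nat.cast_inj]
    congr 1
    unfold Pool.Agent.Zk41.CL.rich
    apply filter_congr
    intro b hb
    rw [num_eq S (mem_range.1 hb)]
  · intro ε l hε hl
    obtain ⟨A, h⟩ := Pool.Agent.Zk41.CL.least ε l hε hl
    refine ⟨A + 1, fun a ha => (h a (by omega)).trans ?_⟩
    rw [Nat.cast_le, ← Set.ncard_coe_finset]
    apply Set.ncard_le_ncard
    · intro b hb
      rw [mem_coe, mem_filter, mem_range] at hb
      obtain ⟨h1, h2, h3⟩ := hb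
      obtain ⟨p, hp⟩ := card_pos.1 h3
      unfold Pool.Agent.Zk41.CL.cls at hp
      rw [mem_filter, Pool.Agent.Zk41.CL.mem_PR] at hp
      have h0 : 0 ≤ l * Nat.totient a * Real.log a := by
        have : 0 ≤ Real.log (a : ℝ) := Real.log_natCast_nonneg a
        positivity
      refine ⟨h1, h2, p, hp.1.1, ?_, (Nat.le_floor_iff h0).1 hp.1.2⟩
      unfold Nat.ModEq
      rw [Nat.mod_eq_of_lt h1]
      exact hp.2
    · exact (Set.finite_lt_nat a).subset fun b hb => hb.1

end Pool.Agent.Results.MP_5b0a7e_nt.QuarterEveryModulus
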